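import Pool.Agent.Q216.EC.Glue

set_option autoImplicit false

/-!
# MP_39baa9_co : vertices of small degree in 3-edge-critical graphs

For even `r ≥ 4` and `n ≥ 2 (r + 3) (r + 1) + 2`, every connected 3-edge-critical graph on `n`
vertices has at most `r` vertices of degree at most `r`.  For every `r ≥ 4` and such `n`, if a
connected 3-edge-critical graph has more than `r` vertices of degree at most `r`, then it has
exactly `r + 1` of them, `r` is odd and each of them is non-adjacent to exactly one other.
Without connectedness the bound fails for every `r`: the disjoint union of `K_{r+1}` and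
`K_{2,...,2}` is 3-edge-critical.
-/

namespace Pool.Agent.Results.MP_39baa9_co.EvenDegreeBound

open Pool.Agent.Q216.EC

theorem result :
    (∀ r : ℕ, Even r → 4 ≤ r → ∃ N : ℕ, ∀ (V : Type) [Fintype V] (G : SimpleGraph V),
      N ≤ Fintype.card V → G.Connected → EdgeCritical 3 G → lowCount G r ≤ r) ∧
    (∀ r : ℕ, 4 ≤ r → ∀ (V : Type) [Fintype V] (G : SimpleGraph V),
      2 * (r + 3) * (r + 1) + 2 ≤ Fintype.card V → G.Connected → EdgeCritical 3 G →
      r < lowCount G r →
      lowCount G r = r + 1 ∧ Odd r ∧
        ∀ s, deg G s ≤ r → ∃! t, deg G t ≤ r ∧ t ≠ s ∧ ¬ G.Adj s t) ∧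
    (∀ r N : ℕ, ∃ (V : Type) (_ : Fintype V) (G : SimpleGraph V),
      N ≤ Fintype.card V ∧ ¬ G.Connected ∧ EdgeCritical 3 G ∧ lowCount G r = r + 1) := by
  refine ⟨?_, ?_, ?_⟩
  · intro r he hr4
    refine ⟨2 * (r + 3) * (r + 1) + 2, ?_⟩
    intro V _ G hn hconn hcrit
    by_contra hcon
    push Not at hcon
    exact (Nat.not_even_iff_odd.2 (structure_thm hr4 G hn hconn hcrit hcon).2.1) he
  · intro r hr4 V _ G hn hconn hcrit hlow
    exact structure_thm hr4 G hn hconn hcrit hlow
  · intro r N
    refine ⟨Fin (r + 1) ⊕ (Fin (N + r + 2) × Bool), inferInstance, exG r (N + r + 2), ?_, ?_, ?_, ?_⟩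
    · rw [Fintype.card_sum, Fintype.card_prod, Fintype.card_fin, Fintype.card_fin,
        Fintype.card_bool]
      omega
    · exact ex_connected r _ (by omega)
    · exact ex_critical r _ (by omega)
    · exact ex_low r _ (by omega)

end Pool.Agent.Results.MP_39baa9_co.EvenDegreeBound
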